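import Mathlib

set_option autoImplicit false

namespace Pool.Agent.Feynman

/-- position of the `j`-th node -/
noncomputable def X (q : ℕ) (j : ℕ) : ℝ := 2 * q - 1 - 2 * j

/-- coefficient at the midpoint between node `j` and node `j+1` -/
noncomputable def pc (q : ℕ) (j : ℕ) : ℝ :=
  (4 * (q:ℝ)^2 - (X q j - 1)^2) / (2 * (X q j - 1))

lemma X_eq (q x0 J : ℕ) (hJ : 2 * q = x0 + 2 * J + 1) (j : ℕ) :
    X q j = x0 + 2 * ((J:ℝ) - j) := by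
  have : (2 * (q:ℝ)) = x0 + 2 * J + 1 := by exact_mod_cast hJ
  unfold X; linarith

/-- the zeroth order coefficient -/
noncomputable def rc (x0 : ℕ) (d : ℝ) : ℝ :=
  16 * d * (x0 + 2 * d) * (x0 + d) / ((x0 + 2 * d)^2 - 1)

/-- algebra: `2 (X - p_{j-1} - p_j) = rc` -/
lemma rc_eq (q x0 J : ℕ) (hx : x0^2 = 2 * q^2 + 1) (hJ : 2 * q = x0 + 2 * J + 1) (j : ℕ)
    (hy : 1 < X q (j+1)) :
    2 * (X q (j+1) - pc q j - pc q (j+1)) = rc x0 ((J:ℝ) - (j+1)) := by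
  have hx' : (x0:ℝ)^2 = 2 * q^2 + 1 := by exact_mod_cast hx
  have e1 := X_eq q x0 J hJ (j+1)
  have e0 : X q j = X q (j+1) + 2 := by unfold X; push_cast; ring
  unfold pc rc
  rw [e0]
  push_cast at e1
  set Y := X q (j+1) with hY
  set d : ℝ := (J:ℝ) - (j+1) with hd
  have eY : Y = x0 + 2 * d := by rw [e1, hd]
  have hx0 : (x0:ℝ) = Y - 2 * d := by rw [eY]; ring
  have hq2 : (q:ℝ)^2 = ((Y - 2*d)^2 - 1) / 2 := by rw [← hx0, hx']; ring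
  rw [hq2, hx0]
  have h1 : Y + 2 - 1 ≠ 0 := by linarith
  have h2 : Y - 1 ≠ 0 := by linarith
  have h3 : (Y - 2 * d + 2 * d)^2 - 1 ≠ 0 := by
    have : (Y - 2 * d + 2 * d)^2 - 1 = (Y - 1) * (Y + 2 - 1) := by ring
    rw [this]; exact mul_ne_zero h2 h1
  field_simp
  ring

lemma rc_eq0 (q x0 J : ℕ) (hx : x0^2 = 2 * q^2 + 1) (hJ : 2 * q = x0 + 2 * J + 1)
    (hy : 1 < X q 0) :
    2 * (X q 0 - pc q 0) = rc x0 (J:ℝ) := by
  have hx' : (x0:ℝ)^2 = 2 * q^2 + 1 := by exact_mod_cast hx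
  have e1 := X_eq q x0 J hJ 0
  have e0 : X q 0 = 2 * q - 1 := by unfold X; push_cast; ring
  unfold pc rc
  push_cast at e1
  have eY : X q 0 = x0 + 2 * (J:ℝ) := by rw [e1]; ring
  rw [← eY, e0]
  rw [e0] at hy
  have hx0 : (x0:ℝ) = 2 * q - 1 - 2 * J := by linarith [e0, eY]
  have hJ2 : (x0:ℝ)^2 = 2 * q^2 + 1 := hx'
  have h2 : (2 * (q:ℝ) - 1) - 1 ≠ 0 := by linarith
  have h3 : (2 * (q:ℝ) - 1)^2 - 1 ≠ 0 := by
    have : (2 * (q:ℝ) - 1)^2 - 1 = (2 * (q:ℝ) - 1 - 1) * (2 * q) := by ring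
    rw [this]; apply mul_ne_zero h2; linarith
  rw [hx0] at hJ2 ⊢
  field_simp
  ring_nf
  ring_nf at hJ2
  nlinarith [hJ2]

end Pool.Agent.Feynman
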