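import Pool.Agent.Feynman.Core

set_option autoImplicit false

namespace Pool.Agent.Feynman

structure Dat (q x0 J k : ℕ) (U : ℕ → ℝ) : Prop where
  hx : x0^2 = 2 * q^2 + 1
  hJ : 2 * q = x0 + 2 * J + 1
  hk : 1 ≤ k
  hq : 65536 * k^4 ≤ q
  U0 : U 0 = 1
  h0 : pc q 0 * (U 0 + U 1) = 2 * X q 0 * U 0
  hr : ∀ j, j + 1 ≤ J + k → pc q (j+1) * (U (j+1) + U (j+2)) + pc q j * (U j + U (j+1))
        = 2 * X q (j+1) * U (j+1)

/-- the flux -/
noncomputable def D (q : ℕ) (U : ℕ → ℝ) (j : ℕ) : ℝ := pc q j * (U (j+1) - U j)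

lemma rc_lb (x0 : ℕ) (hx0 : 2 ≤ x0) (d : ℝ) (hd : 0 ≤ d) : 8 * d ≤ rc x0 d := by
  have h : (2:ℝ) ≤ x0 := by exact_mod_cast hx0
  unfold rc
  have hp : 0 < ((x0:ℝ) + 2 * d)^2 - 1 := by nlinarith
  rw [le_div_iff₀ hp]
  have : 0 ≤ d * ((x0:ℝ) + 2 * d) * (2 * x0 + 2 * d - (x0 + 2 * d)) := by
    apply mul_nonneg (mul_nonneg hd (by linarith)); linarith
  nlinarith [this, mul_nonneg hd (by linarith : (0:ℝ) ≤ 1)]

lemma rc_ub (x0 : ℕ) (d : ℝ) (hd : 0 ≤ d) (h : 4 * d + 4 ≤ x0) :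
    -(32 * d) ≤ rc x0 (-d) ∧ rc x0 (-d) ≤ 0 := by
  unfold rc
  have hX : 0 < (x0:ℝ) + 2 * (-d) := by linarith
  have hp : 0 < ((x0:ℝ) + 2 * (-d))^2 - 1 := by nlinarith
  constructor
  · rw [le_div_iff₀ hp]
    have h1 : 0 ≤ d * (2 * (((x0:ℝ) + 2 * (-d))^2 - 1) - (x0 + 2 * (-d)) * (x0 + -d)) := by
      apply mul_nonneg hd
      nlinarith
    nlinarith
  · apply div_nonpos_of_nonpos_of_nonneg _ hp.le
    have : 0 ≤ d * ((x0:ℝ) + 2 * (-d)) * (x0 + -d) :=
      mul_nonneg (mul_nonneg hd hX.le) (by linarith)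
    nlinarith

variable {q x0 J k : ℕ} {U : ℕ → ℝ}

lemma Dat.kR (h : Dat q x0 J k U) : (1:ℝ) ≤ k := by exact_mod_cast h.hk

lemma Dat.qR (h : Dat q x0 J k U) : 65536 * (k:ℝ)^4 ≤ q := by exact_mod_cast h.hq

lemma Dat.qk (h : Dat q x0 J k U) : 65536 * (k:ℝ)^2 ≤ q ∧ 65536 * (k:ℝ)^3 ≤ q ∧ 65536 * (k:ℝ) ≤ q
    ∧ (65536:ℝ) ≤ q := by
  have h1 := h.kR
  have h2 := h.qR
  have a1 : (k:ℝ) ≤ k^4 := by nlinarith [pow_le_pow_right₀ h1 (by norm_num : 1 ≤ 4)]
  have a2 : (k:ℝ)^2 ≤ k^4 := pow_le_pow_right₀ h1 (by norm_num)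
  have a3 : (k:ℝ)^3 ≤ k^4 := pow_le_pow_right₀ h1 (by norm_num)
  have a0 : (1:ℝ) ≤ k^4 := one_le_pow₀ h1
  refine ⟨by linarith, by linarith, by linarith, by linarith⟩

lemma Dat.x0_bounds (h : Dat q x0 J k U) : 1.41 * (q:ℝ) ≤ x0 ∧ (x0:ℝ) ≤ 1.42 * q := by
  have hx' : (x0:ℝ)^2 = 2 * q^2 + 1 := by exact_mod_cast h.hx
  have hq := h.qk.2.2.2
  have h0 : (0:ℝ) ≤ x0 := Nat.cast_nonneg _
  constructor
  · by_contra hc
    push Not at hc
    nlinarith
  · by_contra hc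
    push Not at hc
    nlinarith

lemma Dat.x0_two (h : Dat q x0 J k U) : 2 ≤ x0 := by
  have := h.x0_bounds.1
  have hq := h.qk.2.2.2
  have : (2:ℝ) ≤ x0 := by linarith
  exact_mod_cast this

lemma Dat.J_big (h : Dat q x0 J k U) : 64 * (k:ℝ)^2 + 1 ≤ J := by
  have hJ' : (2 * (q:ℝ)) = x0 + 2 * J + 1 := by exact_mod_cast h.hJ
  have := h.x0_bounds.2
  have h2 := h.qk.1
  have h3 := h.kR
  nlinarith [h.qk.2.2.2]

lemma Dat.X_lb (h : Dat q x0 J k U) (j : ℕ) (hj : j ≤ J + k + 1) : (q:ℝ) + 10 ≤ X q j := by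
  rw [X_eq q x0 J h.hJ]
  have hj' : (j:ℝ) ≤ J + k + 1 := by exact_mod_cast hj
  have := h.x0_bounds.1
  have h2 := h.qk.2.2.1
  have h4 := h.qk.2.2.2
  have h3 := h.kR
  linarith

lemma Dat.pc_pos (h : Dat q x0 J k U) (j : ℕ) (hj : j ≤ J + k + 1) : 0 < pc q j := by
  have h1 := h.X_lb j hj
  have h2 := h.qk.2.2.2
  unfold pc
  apply div_pos
  · have : X q j ≤ 2 * q - 1 := by unfold X; have : (0:ℝ) ≤ j := Nat.cast_nonneg _; linarith
    nlinarith
  · linarith

lemma Dat.pc_lb (h : Dat q x0 J k U) (j : ℕ) (hj : j ≤ J + k + 1) (hI : J ≤ j + 64 * k^2) :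
    (q:ℝ) / 2 ≤ pc q j := by
  have h1 := h.X_lb j hj
  have h2 := h.qk.2.2.2
  have hI' : (J:ℝ) ≤ j + 64 * k^2 := by exact_mod_cast hI
  have h3 : X q j ≤ 1.5 * q := by
    rw [X_eq q x0 J h.hJ]
    have := h.x0_bounds.2
    have := h.qk.1
    linarith
  unfold pc
  rw [le_div_iff₀ (by linarith)]
  nlinarith

lemma Dat.D_succ (h : Dat q x0 J k U) (j : ℕ) (hj : j + 1 ≤ J + k) :
    D q U (j+1) = D q U j + rc x0 ((J:ℝ) - (j+1)) * U (j+1) := by
  have e := rc_eq q x0 J h.hx h.hJ j (by have := h.X_lb (j+1) (by omega); have := h.qk.2.2.2; linarith)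
  rw [← e]
  have := h.hr j hj
  unfold D
  linarith

lemma Dat.D_zero (h : Dat q x0 J k U) : D q U 0 = rc x0 (J:ℝ) * U 0 := by
  have e := rc_eq0 q x0 J h.hx h.hJ (by have := h.X_lb 0 (by omega); have := h.qk.2.2.2; linarith)
  rw [← e]
  have := h.h0
  unfold D
  linarith

lemma Dat.U_succ (h : Dat q x0 J k U) (j : ℕ) (hj : j ≤ J + k + 1) :
    U (j+1) = U j + D q U j / pc q j := by
  have := h.pc_pos j hj
  unfold D
  field_simp
  ring

/-- growth up to the turning point -/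
lemma Dat.right (h : Dat q x0 J k U) (j : ℕ) (hj : j ≤ J) : 0 < U j ∧ 0 < D q U j := by
  induction j with
  | zero =>
    rw [h.D_zero, h.U0]
    have := rc_lb x0 h.x0_two (J:ℝ) (Nat.cast_nonneg _)
    have := h.J_big
    have := h.kR
    exact ⟨one_pos, by nlinarith⟩
  | succ j ih =>
    obtain ⟨a, b⟩ := ih (by omega)
    have c : 0 < U (j+1) := by
      rw [h.U_succ j (by omega)]
      have := div_pos b (h.pc_pos j (by omega))
      linarith
    refine ⟨c, ?_⟩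
    rw [h.D_succ j (by omega)]
    have hd : (0:ℝ) ≤ (J:ℝ) - (j+1) := by
      have : ((j+1:ℕ):ℝ) ≤ J := by exact_mod_cast hj
      push_cast at this; linarith
    have := rc_lb x0 h.x0_two _ hd
    have : 0 ≤ rc x0 ((J:ℝ) - (j+1)) * U (j+1) := mul_nonneg (by linarith) c.le
    linarith

lemma Dat.D_mono (h : Dat q x0 J k U) (j l : ℕ) (hjl : j ≤ l) (hl : l ≤ J) : D q U j ≤ D q U l := by
  induction l, hjl using Nat.le_induction with
  | base => exact le_rfl
  | succ l hl' ih =>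
    have := ih (by omega)
    rw [h.D_succ l (by omega)]
    have hd : (0:ℝ) ≤ (J:ℝ) - (l+1) := by
      have : ((l+1:ℕ):ℝ) ≤ J := by exact_mod_cast hl
      push_cast at this; linarith
    have := rc_lb x0 h.x0_two _ hd
    have : 0 ≤ rc x0 ((J:ℝ) - (l+1)) * U (l+1) := mul_nonneg (by linarith) (h.right (l+1) hl).1.le
    linarith

/-- lower bound of the flux on a window to the right of the turning point -/
lemma Dat.D_window (h : Dat q x0 J k U) (a : ℕ) (ha : a + 64 * k^2 = J) (i : ℕ) (hi : i + 1 ≤ 64 * k^2) :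
    8 * i * U a ≤ D q U (a+i) ∧ U a ≤ U (a+i) := by
  induction i with
  | zero =>
    have := (h.right a (by omega)).2
    simp only [Nat.cast_zero, add_zero]
    constructor
    · linarith
    · exact le_rfl
  | succ i ih =>
    obtain ⟨b, c⟩ := ih (by omega)
    have hp := h.pc_pos (a+i) (by omega)
    have hD := (h.right (a+i) (by omega)).2
    have hU : U a ≤ U (a+i+1) := by
      rw [h.U_succ (a+i) (by omega)]
      have := div_pos hD hp
      linarith
    refine ⟨?_, hU⟩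
    rw [← add_assoc, h.D_succ (a+i) (by omega)]
    have hd : (1:ℝ) ≤ (J:ℝ) - ((a+i:ℕ)+1) := by
      have : ((a+i+2:ℕ):ℝ) ≤ J := by exact_mod_cast (by omega)
      push_cast at this ⊢; linarith
    have h8 := rc_lb x0 h.x0_two ((J:ℝ) - ((a+i:ℕ)+1)) (by linarith)
    have hUa := (h.right a (by omega)).1
    have : 8 * U a ≤ rc x0 ((J:ℝ) - ((a+i:ℕ)+1)) * U (a+i+1) := by
      apply mul_le_mul (by linarith) hU hUa.le (by linarith)
    push_cast at this ⊢
    linarith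

lemma Dat.U_window (h : Dat q x0 J k U) (a : ℕ) (ha : a + 64 * k^2 = J) (i : ℕ) (hi : i ≤ 64 * k^2) :
    U (a+i) ≤ U a + i * (D q U J / (q/2)) := by
  induction i with
  | zero => simp
  | succ i ih =>
    have b := ih (by omega)
    rw [← add_assoc, h.U_succ (a+i) (by omega)]
    have hp := h.pc_lb (a+i) (by omega) (by omega)
    have hq := h.qk.2.2.2
    have hD := h.D_mono (a+i) J (by omega) le_rfl
    have hD0 := (h.right (a+i) (by omega)).2
    have : D q U (a+i) / pc q (a+i) ≤ D q U J / (q/2) := by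
      apply div_le_div₀ (by linarith) hD (by linarith) hp
    push_cast
    linarith

/-- the flux at the turning point is large -/
lemma Dat.D_turn (h : Dat q x0 J k U) : 128 * (k:ℝ)^2 * U J ≤ D q U J := by
  have hJb : 64 * k^2 ≤ J := by
    have := h.J_big
    have : (64 * (k:ℝ)^2) ≤ J := by linarith
    exact_mod_cast this
  obtain ⟨a, ha⟩ : ∃ a, a + 64 * k^2 = J := ⟨J - 64 * k^2, by omega⟩
  have hk2 : 1 ≤ k^2 := Nat.one_le_pow _ _ h.hk
  have h1 := (h.D_window a ha (64 * k^2 - 1) (by omega)).1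
  have h2 := h.D_mono (a + (64*k^2-1)) J (by omega) le_rfl
  have h3 := h.U_window a ha (64 * k^2) le_rfl
  rw [ha] at h3
  have hcast : (((64 * k^2 - 1 : ℕ)) : ℝ) = 64 * (k:ℝ)^2 - 1 := by
    rw [Nat.cast_sub (by omega)]; push_cast; ring
  rw [hcast] at h1
  push_cast at h3
  have hk := h.kR
  have hq4 := h.qR
  have hUa := (h.right a (by omega)).1
  have hc := (h.right J le_rfl).2
  set c := D q U J with hcdef
  have hqpos : (0:ℝ) < q := by have := h.qk.2.2.2; linarith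
  -- I c / P ≤ ...
  have h4 : 64 * (k:ℝ)^2 * (c / (q/2)) * (4 * (64 * (k:ℝ)^2)) ≤ c / 2 := by
    have : 64 * (k:ℝ)^2 * (c / (q/2)) * (4 * (64 * (k:ℝ)^2)) = c * (32768 * (k:ℝ)^4 / q) := by
      field_simp; ring
    rw [this]
    have : 32768 * (k:ℝ)^4 / q ≤ 1/2 := by
      rw [div_le_iff₀ hqpos]; linarith
    nlinarith
  have hk22 : (1:ℝ) ≤ (k:ℝ)^2 := one_le_pow₀ hk
  have h5 : 4 * (64 * (k:ℝ)^2) * U a ≤ c := by
    have : 4 * (64 * (k:ℝ)^2) * U a ≤ 8 * (64 * (k:ℝ)^2 - 1) * U a := by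
      apply mul_le_mul_of_nonneg_right _ hUa.le; linarith
    linarith
  have h6 : 4 * (64 * (k:ℝ)^2) * U J ≤ 4 * (64 * (k:ℝ)^2) * (U a + 64 * (k:ℝ)^2 * (c / (q/2))) :=
    mul_le_mul_of_nonneg_left h3 (by positivity)
  have h7 : 4 * (64 * (k:ℝ)^2) * (U a + 64 * (k:ℝ)^2 * (c / (q/2))) =
     4 * (64 * (k:ℝ)^2) * U a + 64 * (k:ℝ)^2 * (c / (q/2)) * (4 * (64 * (k:ℝ)^2)) := by ring
  nlinarith

/-- the window to the left of the turning point -/
lemma Dat.left (h : Dat q x0 J k U) (i : ℕ) (hi : i ≤ k) :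
    U J ≤ U (J+i) ∧ U (J+i) ≤ U J + i * (D q U J / (q/2)) ∧
    D q U J * (1 - i / (2 * k)) ≤ D q U (J+i) ∧ D q U (J+i) ≤ D q U J := by
  induction i with
  | zero => simp
  | succ i ih =>
    obtain ⟨a1, a2, a3, a4⟩ := ih (by omega)
    have hk := h.kR
    have hUJ := (h.right J le_rfl).1
    have hDJ := (h.right J le_rfl).2
    have hturn := h.D_turn
    have hqpos : (0:ℝ) < q := by have := h.qk.2.2.2; linarith
    have hik : ((i:ℝ)) ≤ k - 1 := by
      have : ((i+1:ℕ):ℝ) ≤ k := by exact_mod_cast hi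
      push_cast at this; linarith
    have hfrac : (i:ℝ) / (2*k) ≤ 1/2 := by
      rw [div_le_iff₀ (by linarith)]; linarith
    have hDi : 0 < D q U (J+i) := by
      have : 0 < D q U J * (1 - i / (2 * k)) := mul_pos hDJ (by linarith)
      linarith
    have hp := h.pc_lb (J+i) (by omega) (by omega)
    have hpp := h.pc_pos (J+i) (by omega)
    have hU := h.U_succ (J+i) (by omega)
    have hstep : D q U (J+i) / pc q (J+i) ≤ D q U J / (q/2) := by
      apply div_le_div₀ hDJ.le a4 (by linarith) hp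
    have hstep0 := div_pos hDi hpp
    have b1 : U J ≤ U (J+i+1) := by rw [hU]; linarith
    have b2 : U (J+i+1) ≤ U J + (i+1) * (D q U J / (q/2)) := by rw [hU]; linarith
    have hx0 : 4 * ((i:ℝ)+1) + 4 ≤ x0 := by
      have := h.x0_bounds.1
      have := h.qk.2.2.1
      have := h.qk.2.2.2
      linarith
    have hrc := rc_ub x0 ((i:ℝ)+1) (by positivity) hx0
    have hDs := h.D_succ (J+i) (by omega)
    have harg : (J:ℝ) - (((J+i:ℕ):ℝ)+1) = -((i:ℝ)+1) := by push_cast; ring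
    rw [harg] at hDs
    have hUpos : 0 < U (J+i+1) := by linarith
    -- bound the loss
    have hloss : -(32 * (k:ℝ)) * (U J + k * (D q U J / (q/2))) ≤ rc x0 (-((i:ℝ)+1)) * U (J+i+1) := by
      have c1 : -(32 * ((i:ℝ)+1)) * U (J+i+1) ≤ rc x0 (-((i:ℝ)+1)) * U (J+i+1) :=
        mul_le_mul_of_nonneg_right hrc.1 hUpos.le
      have c2 : (32 * ((i:ℝ)+1)) * U (J+i+1) ≤ (32 * (k:ℝ)) * (U J + k * (D q U J / (q/2))) := by
        apply mul_le_mul (by linarith) _ hUpos.le (by linarith)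
        have : ((i:ℝ)+1) * (D q U J / (q/2)) ≤ k * (D q U J / (q/2)) :=
          mul_le_mul_of_nonneg_right (by linarith) (by positivity)
        linarith
      linarith
    have hl2 : (32 * (k:ℝ)) * (U J + k * (D q U J / (q/2))) ≤ D q U J / (2 * k) := by
      have d1 : 32 * (k:ℝ) * U J ≤ D q U J / (4*k) := by
        rw [le_div_iff₀ (by linarith)]
        nlinarith
      have d2 : 32 * (k:ℝ) * (k * (D q U J / (q/2))) ≤ D q U J / (4*k) := by
        rw [le_div_iff₀ (by linarith)]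
        have : 32 * (k:ℝ) * (k * (D q U J / (q/2))) * (4*k) = D q U J * (256 * (k:ℝ)^3 / q) := by
          field_simp; ring
        rw [this]
        have : 256 * (k:ℝ)^3 / q ≤ 1 := by
          rw [div_le_iff₀ hqpos]; have := h.qk.2.1; nlinarith [pow_pos (by linarith : (0:ℝ) < k) 3]
        nlinarith
      have d3 : D q U J / (2*k) = D q U J / (4*k) + D q U J / (4*k) := by field_simp; ring
      rw [d3, mul_add]; linarith
    refine ⟨by rw [← add_assoc]; exact b1, by rw [← add_assoc]; push_cast; exact b2, ?_, ?_⟩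
    · rw [← add_assoc, hDs]
      have e : D q U J * (1 - ((i+1:ℕ):ℝ) / (2 * k)) = D q U J * (1 - (i:ℝ) / (2 * k)) - D q U J / (2*k) := by
        push_cast; field_simp; ring
      rw [e]; linarith
    · rw [← add_assoc, hDs]
      have : rc x0 (-((i:ℝ)+1)) * U (J+i+1) ≤ 0 := mul_nonpos_of_nonpos_of_nonneg hrc.2 hUpos.le
      linarith

theorem Dat.main (h : Dat q x0 J k U) (j : ℕ) (hj : j ≤ J + k) : 0 < U j ∧ U j < U (j+1) := by
  have key : 0 < U j ∧ 0 < D q U j := by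
    rcases le_total j J with hjJ | hjJ
    · exact h.right j hjJ
    · obtain ⟨i, rfl⟩ := Nat.exists_eq_add_of_le hjJ
      have hi : i ≤ k := by omega
      obtain ⟨a1, a2, a3, a4⟩ := h.left i hi
      have hUJ := (h.right J le_rfl).1
      have hDJ := (h.right J le_rfl).2
      have hk := h.kR
      refine ⟨by linarith, ?_⟩
      have hik : ((i:ℝ)) ≤ k := by exact_mod_cast hi
      have hfrac : (i:ℝ) / (2*k) ≤ 1/2 := by
        rw [div_le_iff₀ (by linarith)]; linarith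
      have : 0 < D q U J * (1 - i / (2 * k)) := mul_pos hDJ (by linarith)
      linarith
  refine ⟨key.1, ?_⟩
  rw [h.U_succ j (by omega)]
  have := div_pos key.2 (h.pc_pos j (by omega))
  linarith

end Pool.Agent.Feynman
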