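import Mathlib

set_option autoImplicit false

namespace Pool.Agent.Feynman

/-- The pair of integer amplitudes `(u, v)` of Feynman checkers after `n+1` steps:
`u` is minus the imaginary part (last step to the left), `v` the real part (last step to the right),
before the normalisation by `2^{-n/2}`. -/
def uv : ℕ → (ℤ → ℤ) × (ℤ → ℤ)
  | 0 => (fun _ => 0, fun x => if x = 1 then 1 else 0)
  | n+1 => (fun x => (uv n).1 (x+1) + (uv n).2 (x+1), fun x => (uv n).2 (x-1) - (uv n).1 (x-1))

def u (n : ℕ) (x : ℤ) : ℤ := (uv n).1 x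
def v (n : ℕ) (x : ℤ) : ℤ := (uv n).2 x

lemma u_zero (x : ℤ) : u 0 x = 0 := rfl
lemma v_zero (x : ℤ) : v 0 x = if x = 1 then 1 else 0 := rfl
lemma u_succ (n : ℕ) (x : ℤ) : u (n+1) x = u n (x+1) + v n (x+1) := rfl
lemma v_succ (n : ℕ) (x : ℤ) : v (n+1) x = v n (x-1) - u n (x-1) := rfl

end Pool.Agent.Feynman
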