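import Pool.Agent.Feynman.Defs

set_option autoImplicit false

namespace Pool.Agent.Feynman

/-- the two contiguity relations at fixed time -/
theorem contig (n : ℕ) : ∀ x : ℤ,
    ((n:ℤ) - 1 - x) * v n (x+2) - ((n:ℤ) + 1 - x) * v n x = 2 * x * u n x ∧
    ((n:ℤ) + 1 + x) * (u n (x+2) - u n x) = -2 * (x+1) * v n (x+2) := by
  induction n with
  | zero =>
    intro x
    simp only [u_zero, v_zero]
    constructor
    · by_cases h1 : x = 1
      · subst h1; norm_num
      · by_cases h2 : x + 2 = 1
        · have : x = -1 := by omega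
          subst this; norm_num
        · simp [h1, h2]
    · by_cases h2 : x + 2 = 1
      · have : x = -1 := by omega
        subst this; norm_num
      · simp [h2]
  | succ n ih =>
    intro x
    obtain ⟨h1, h2⟩ := ih (x-1)
    obtain ⟨h3, h4⟩ := ih (x+1)
    have e1 : x - 1 + 2 = x + 1 := by ring
    have e2 : x + 1 + 2 = x + 3 := by ring
    have e3 : x + 2 + 1 = x + 3 := by ring
    have e4 : x + 2 - 1 = x + 1 := by ring
    rw [e1] at h1 h2
    rw [e2] at h3 h4
    simp only [u_succ, v_succ, e3, e4]
    push_cast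
    constructor
    · linear_combination h1 - h2
    · linear_combination h3 + h4

/-- support and parity -/
theorem supp (n : ℕ) : ∀ x : ℤ, ((n:ℤ) + 1 < x ∨ x < -((n:ℤ) + 1) ∨ (x - n) % 2 = 0) →
    u n x = 0 ∧ v n x = 0 := by
  induction n with
  | zero =>
    intro x h
    refine ⟨rfl, ?_⟩
    rw [v_zero, if_neg]
    rintro rfl
    norm_num at h
  | succ n ih =>
    intro x h
    push_cast at h
    have a := ih (x+1) (by omega)
    have b := ih (x-1) (by omega)
    rw [u_succ, v_succ, a.1, a.2, b.1, b.2]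
    simp

theorem edge (n : ℕ) : u n ((n:ℤ)+1) = 0 ∧ v n ((n:ℤ)+1) = 1 := by
  induction n with
  | zero => simp [u_zero, v_zero]
  | succ n ih =>
    have h := supp n ((n:ℤ)+1+1+1) (by left; omega)
    rw [u_succ, v_succ]
    push_cast
    rw [show (n:ℤ) + 1 + 1 - 1 = n + 1 by ring, ih.1, ih.2, h.1, h.2]
    simp

end Pool.Agent.Feynman
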