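import Pool.Agent.Feynman.Ident
import Pool.Agent.Feynman.Core2

set_option autoImplicit false

namespace Pool.Agent.Feynman

/-- signed value of `u` at the `j`-th node -/
noncomputable def UU (q j : ℕ) : ℝ := (-1)^j * (u (2*q) (2*q - 1 - 2*j) : ℝ)

/-- signed value of `v` at the `j`-th node -/
noncomputable def VV (q j : ℕ) : ℝ := -((-1)^j * (v (2*q) (2*q - 1 - 2*j) : ℝ))

lemma start (q : ℕ) (hq : 1 ≤ q) : UU q 0 = 1 ∧ VV q 0 = 2*q - 1 := by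
  have h := contig (2*q) (2*q-1)
  have he := edge (2*q)
  have e : (2*(q:ℤ)-1)+2 = ((2*q:ℕ):ℤ)+1 := by push_cast; ring
  rw [e, he.1, he.2] at h
  push_cast at h
  have hq' : (1:ℤ) ≤ q := by exact_mod_cast hq
  have h2 : u (2*q) (2*q-1) = 1 := by
    have h3 : 2 * (2*(q:ℤ)) * (u (2*q) (2*q-1) - 1) = 0 := by linear_combination -h.2
    rcases mul_eq_zero.mp h3 with h4 | h4
    · omega
    · omega
  have h1 : v (2*q) (2*q-1) = -(2*q-1) := by
    have h3 := h.1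
    rw [h2] at h3
    linarith
  unfold UU VV
  rw [show (2*(q:ℤ) - 1 - 2*((0:ℕ):ℤ)) = 2*q-1 by push_cast; ring, h1, h2]
  push_cast
  constructor <;> ring

lemma rel1 (q j : ℕ) :
    ((j:ℝ)+1) * VV q j + ((j:ℝ)+2) * VV q (j+1) = (2*q - 1 - 2*((j:ℝ)+1)) * UU q (j+1) := by
  have h := (contig (2*q) (2*q-1-2*(j+1:ℕ))).1
  have e : (2*(q:ℤ)-1-2*(j+1:ℕ))+2 = 2*q-1-2*j := by push_cast; ring
  rw [e] at h
  have h' : (((2*q:ℕ):ℝ) - 1 - (2*(q:ℝ)-1-2*((j:ℝ)+1))) * (v (2*q) (2*q-1-2*j) : ℝ)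
      - (((2*q:ℕ):ℝ) + 1 - (2*(q:ℝ)-1-2*((j:ℝ)+1))) * (v (2*q) (2*q-1-2*(j+1:ℕ)) : ℝ)
      = 2 * (2*(q:ℝ)-1-2*((j:ℝ)+1)) * (u (2*q) (2*q-1-2*(j+1:ℕ)) : ℝ) := by exact_mod_cast h
  unfold UU VV
  push_cast at h' ⊢
  rw [pow_succ]
  linear_combination (-(-1)^j / 2 : ℝ) * h'

lemma rel2 (q j : ℕ) :
    (2*(q:ℝ) - 1 - j) * (UU q j + UU q (j+1)) = (2*q - 2 - 2*j) * VV q j := by
  have h := (contig (2*q) (2*q-1-2*(j+1:ℕ))).2
  have e : (2*(q:ℤ)-1-2*(j+1:ℕ))+2 = 2*q-1-2*j := by push_cast; ring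
  rw [e] at h
  have h' : (((2*q:ℕ):ℝ) + 1 + (2*(q:ℝ)-1-2*((j:ℝ)+1))) * ((u (2*q) (2*q-1-2*j) : ℝ)
      - (u (2*q) (2*q-1-2*(j+1:ℕ)) : ℝ))
      = -2 * ((2*(q:ℝ)-1-2*((j:ℝ)+1)) + 1) * (v (2*q) (2*q-1-2*j) : ℝ) := by exact_mod_cast h
  unfold UU VV
  push_cast at h' ⊢
  rw [pow_succ]
  linear_combination ((-1)^j / 2 : ℝ) * h'

/-- `p_j (U_j + U_{j+1}) = 2 (j+1) V_j` -/
lemma pc_mul (q j : ℕ) (hy : 1 < X q j) :
    pc q j * (UU q j + UU q (j+1)) = 2 * ((j:ℝ)+1) * VV q j := by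
  have h := rel2 q j
  unfold pc
  have h1 : X q j - 1 ≠ 0 := by linarith
  have eX : X q j = 2*q-1-2*j := rfl
  rw [eX] at h1 ⊢
  have h2 : (4 * (q:ℝ)^2 - (2*q-1-2*j-1)^2) = 4 * ((j:ℝ)+1) * (2*(q:ℝ) - 1 - j) := by ring
  rw [h2]
  rw [div_mul_eq_mul_div, div_eq_iff (by simpa using h1)]
  linear_combination 4 * ((j:ℝ)+1) * h

lemma mkDat (q x0 J k : ℕ) (hx : x0^2 = 2 * q^2 + 1) (hJ : 2 * q = x0 + 2 * J + 1)
    (hk : 1 ≤ k) (hq : 65536 * k^4 ≤ q) : Dat q x0 J k (UU q) := by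
  have hk4 : k ≤ k^4 := Nat.le_self_pow (by norm_num) k
  have hq1 : 1 ≤ q := by omega
  have hqx : q < x0 := by
    by_contra hcon
    have : x0 ≤ q := by omega
    have : x0^2 ≤ q^2 := Nat.pow_le_pow_left this 2
    omega
  have hxk : 2 * k + 1 < x0 := by omega
  have hX : ∀ j, j ≤ J + k → 1 < X q j := by
    intro j hj
    rw [X_eq q x0 J hJ j]
    have h1 : (j:ℝ) ≤ J + k := by exact_mod_cast hj
    have h2 : (2:ℝ) * k + 1 < x0 := by exact_mod_cast hxk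
    linarith
  refine ⟨hx, hJ, hk, hq, (start q hq1).1, ?_, ?_⟩
  · have h := pc_mul q 0 (hX 0 (by omega))
    rw [zero_add] at h
    rw [h, (start q hq1).1, (start q hq1).2]
    unfold X
    push_cast; ring
  · intro j hj
    rw [pc_mul q j (hX j (by omega)), pc_mul q (j+1) (hX (j+1) hj)]
    have h := rel1 q j
    unfold X
    push_cast
    linear_combination 2 * h

/-- value of the (unnormalised) probability -/
def Pz (n : ℕ) (x : ℤ) : ℤ := u n x ^ 2 + v n x ^ 2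

lemma Pz_node (q j : ℕ) : (Pz (2*q) (2*q-1-2*j) : ℝ) = UU q j ^ 2 + VV q j ^ 2 := by
  unfold Pz UU VV
  push_cast
  rw [neg_sq, mul_pow, mul_pow, ← pow_mul, mul_comm j 2, pow_mul]
  norm_num

/-- strict growth of the probability from the right end up to the node `J + k` -/
theorem Pz_mono (q x0 J k : ℕ) (h : Dat q x0 J k (UU q)) (j : ℕ) (hj : j + 1 ≤ J + k) :
    Pz (2*q) (2*q-1-2*j) < Pz (2*q) (2*q-1-2*(j+1:ℕ)) := by
  have hm0 := h.main j (by omega)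
  have hm1 := h.main (j+1) hj
  have r0 := rel2 q j
  have r1 := rel2 q (j+1)
  have hX := h.X_lb (j+1) (by omega)
  have hq0 : (0:ℝ) ≤ q := Nat.cast_nonneg q
  have hj0 : (0:ℝ) ≤ j := Nat.cast_nonneg j
  unfold X at hX
  push_cast at hX r1
  have hreal : (Pz (2*q) (2*q-1-2*j) : ℝ) < (Pz (2*q) (2*q-1-2*(j+1:ℕ)) : ℝ) := by
    rw [Pz_node, Pz_node]
    set a := UU q j
    set b := UU q (j+1)
    set c := UU q (j+2)
    have y0 : 0 < 2*(q:ℝ) - 2 - 2*j := by linarith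
    have y1 : 0 < 2*(q:ℝ) - 2 - 2*(j+1) := by linarith
    have m1 : 0 < 2*(q:ℝ) - 1 - (j+1) := by linarith
    have m0 : 0 < 2*(q:ℝ) - 1 - j := by linarith
    have V0 : VV q j = (2*(q:ℝ) - 1 - j) * (a + b) / (2*q - 2 - 2*j) := by
      rw [eq_div_iff y0.ne']; linarith
    have V1 : VV q (j+1) = (2*(q:ℝ) - 1 - (j+1)) * (b + c) / (2*q - 2 - 2*(j+1)) := by
      rw [eq_div_iff y1.ne']; linarith
    have hV0 : 0 < VV q j := by
      rw [V0]; apply div_pos (mul_pos m0 (by linarith [hm0.1, hm0.2])) y0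
    have hc01 : (2*(q:ℝ) - 1 - j) / (2*q - 2 - 2*j) < (2*(q:ℝ) - 1 - (j+1)) / (2*q - 2 - 2*(j+1)) := by
      rw [div_lt_div_iff₀ y0 y1]
      nlinarith
    have hV : VV q j < VV q (j+1) := by
      rw [V0, V1, mul_div_right_comm, mul_div_right_comm]
      apply mul_lt_mul'' hc01 (by linarith [hm0.2, hm1.2])
      · exact (div_pos m0 y0).le
      · linarith [hm0.1, hm0.2]
    have hs1 : a^2 < b^2 := by
      apply pow_lt_pow_left₀ hm0.2 hm0.1.le (by norm_num)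
    have hs2 : VV q j ^2 < VV q (j+1) ^2 := pow_lt_pow_left₀ hV hV0.le (by norm_num)
    linarith
  exact_mod_cast hreal

/-- arbitrarily large solutions of the Pell equation -/
lemma pell (N : ℕ) : ∃ x q : ℕ, x^2 = 2*q^2+1 ∧ N ≤ q ∧ 1 ≤ q := by
  induction N with
  | zero => exact ⟨3, 2, by norm_num, by norm_num, by norm_num⟩
  | succ N ih =>
    obtain ⟨x, q, h, hN, h1⟩ := ih
    exact ⟨3*x+4*q, 2*x+3*q, by nlinarith, by omega, by omega⟩

lemma exJ (x q : ℕ) (h : x^2 = 2*q^2+1) (h1 : 1 ≤ q) : ∃ J : ℕ, 2*q = x + 2*J + 1 := by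
  have hodd : x % 2 = 1 := by
    rcases Nat.even_or_odd x with he | ho
    · exfalso
      obtain ⟨y, rfl⟩ := he
      have : (y+y)^2 = 2*(2*y^2) := by ring
      omega
    · exact Nat.odd_iff.mp ho
  have hlt : x < 2*q := by
    by_contra hcon
    have : 2*q ≤ x := by omega
    have h2 : (2*q)^2 ≤ x^2 := Nat.pow_le_pow_left this 2
    have h3 : (2*q)^2 = 4*q^2 := by ring
    have h4 : 1 ≤ q^2 := Nat.one_le_pow _ _ h1
    omega
  exact ⟨(2*q-1-x)/2, by omega⟩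

/-- Main combinatorial statement: the maximum of the probability is far to the left of `t/√2`. -/
theorem far (k : ℕ) (hk : 1 ≤ k) : ∃ (q x0 : ℕ) (x : ℤ), x0^2 = 2*q^2+1 ∧ 1 ≤ q ∧
    (∀ y : ℤ, Pz (2*q) y ≤ Pz (2*q) x) ∧ x + 2*k ≤ x0 := by
  obtain ⟨x0, q, hx, hq, hq1⟩ := pell (65536 * k^4)
  obtain ⟨J, hJ⟩ := exJ x0 q hx hq1
  have hD := mkDat q x0 J k hx hJ hk hq
  obtain ⟨x, hxm, hmax⟩ := Finset.exists_max_image (Finset.Icc (-((2*q:ℤ)+1)) ((2*q:ℤ)+1))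
    (Pz (2*q)) ⟨(2*q:ℤ)+1, by rw [Finset.mem_Icc]; constructor <;> omega⟩
  rw [Finset.mem_Icc] at hxm
  have hedge : Pz (2*q) ((2*q:ℤ)+1) = 1 := by
    have he := edge (2*q)
    push_cast at he
    unfold Pz
    rw [he.1, he.2]; norm_num
  have h1 : 1 ≤ Pz (2*q) x := by
    rw [← hedge]
    apply hmax
    rw [Finset.mem_Icc]; constructor <;> omega
  have hall : ∀ y : ℤ, Pz (2*q) y ≤ Pz (2*q) x := by
    intro y
    by_cases hy : y ∈ Finset.Icc (-((2*q:ℤ)+1)) ((2*q:ℤ)+1)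
    · exact hmax y hy
    · have hs := supp (2*q) y (by
        rw [Finset.mem_Icc] at hy
        push_cast
        omega)
      have : Pz (2*q) y = 0 := by unfold Pz; rw [hs.1, hs.2]; norm_num
      omega
  refine ⟨q, x0, x, hx, hq1, hall, ?_⟩
  -- parity of `x`
  have hpar : (x - 2*q) % 2 ≠ 0 := by
    intro hp
    have hs := supp (2*q) x (by push_cast; right; right; exact hp)
    have : Pz (2*q) x = 0 := by unfold Pz; rw [hs.1, hs.2]; norm_num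
    omega
  by_contra hcon
  push Not at hcon
  -- `x` is `2q+1` or a node `j < J+k`
  by_cases hxe : x = 2*q+1
  · subst hxe
    have h2 := hall (2*q-1)
    rw [hedge] at h2
    have h3 := Pz_node q 0
    have h4 := start q hq1
    rw [h4.1, h4.2] at h3
    have e0 : (2*(q:ℤ)-1-2*((0:ℕ):ℤ)) = 2*q-1 := by push_cast; ring
    rw [e0] at h3
    have h5 : (Pz (2*q) (2*q-1) : ℝ) ≤ 1 := by exact_mod_cast h2
    rw [h3] at h5
    have : (1:ℝ) ≤ q := by exact_mod_cast hq1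
    nlinarith
  · obtain ⟨j, hj⟩ : ∃ j : ℕ, x = 2*q-1-2*j := ⟨((2*q-1-x)/2).toNat, by omega⟩
    have hjk : j + 1 ≤ J + k := by
      have : 2*(q:ℤ) = x0+2*J+1 := by exact_mod_cast hJ
      omega
    have h2 := Pz_mono q x0 J k hD j hjk
    have h3 := hall (2*q-1-2*(j+1:ℕ))
    rw [hj] at h3
    omega

end Pool.Agent.Feynman
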