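import Pool.Agent.Feynman.Defs

set_option autoImplicit false

namespace Pool.Agent.Feynman

/-- weight of a path -/
noncomputable def wt {n : ℕ} (s : Fin (n+1) → Bool) : ℂ :=
  ∏ i : Fin n, (if s i.castSucc ≠ s i.succ then -Complex.I else 1)

/-- endpoint of a path -/
def ep {n : ℕ} (s : Fin (n+1) → Bool) : ℤ := ∑ i, (if s i then (1:ℤ) else -1)

/-- sum over the paths with last step `b` -/
noncomputable def TT (n : ℕ) (b : Bool) (y : ℤ) : ℂ :=
  ∑ s : Fin (n+1) → Bool, if s 0 = true ∧ ep s = y ∧ s (Fin.last n) = b then wt s else 0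

lemma wt_snoc {n : ℕ} (s : Fin (n+1) → Bool) (b : Bool) :
    wt (Fin.snoc (α := fun _ => Bool) s b : Fin (n+2) → Bool) =
      wt s * (if s (Fin.last n) ≠ b then -Complex.I else 1) := by
  unfold wt
  rw [Fin.prod_univ_castSucc]
  congr 1
  · apply Finset.prod_congr rfl
    intro i _
    rw [Fin.snoc_castSucc, Fin.succ_castSucc, Fin.snoc_castSucc]
  · rw [Fin.snoc_castSucc, Fin.succ_last, Fin.snoc_last]

lemma ep_snoc {n : ℕ} (s : Fin (n+1) → Bool) (b : Bool) :
    ep (Fin.snoc (α := fun _ => Bool) s b : Fin (n+2) → Bool) =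
      ep s + (if b then (1:ℤ) else -1) := by
  unfold ep
  rw [Fin.sum_univ_castSucc]
  simp only [Fin.snoc_castSucc, Fin.snoc_last]

lemma TT_succ (n : ℕ) (b : Bool) (y : ℤ) :
    TT (n+1) b y = TT n b (y - (if b then (1:ℤ) else -1)) +
      (-Complex.I) * TT n (!b) (y - (if b then (1:ℤ) else -1)) := by
  have h : TT (n+1) b y = ∑ s : Fin (n+1) → Bool, ∑ c : Bool,
      if s 0 = true ∧ ep s + (if c then (1:ℤ) else -1) = y ∧ c = b
      then wt s * (if s (Fin.last n) ≠ c then -Complex.I else 1) else 0 := by
    unfold TT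
    rw [← (Fin.snocEquiv (fun _ : Fin (n+2) => Bool)).sum_comp, Fintype.sum_prod_type,
      Finset.sum_comm]
    apply Finset.sum_congr rfl
    intro s _
    apply Finset.sum_congr rfl
    intro c _
    have h1 : (Fin.snocEquiv (fun _ : Fin (n+2) => Bool)) (c, s) =
        (Fin.snoc (α := fun _ => Bool) s c : Fin (n+2) → Bool) := rfl
    rw [h1, ep_snoc, wt_snoc]
    have h2 : (Fin.snoc (α := fun _ => Bool) s c : Fin (n+2) → Bool) 0 = s 0 := by
      have := Fin.snoc_castSucc (α := fun _ => Bool) c s 0
      simpa using this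
    rw [h2, Fin.snoc_last]
  rw [h]
  unfold TT
  rw [Finset.mul_sum, ← Finset.sum_add_distrib]
  apply Finset.sum_congr rfl
  intro s _
  rw [Fintype.sum_bool]
  cases b <;> cases hs : s (Fin.last n) <;> by_cases h0 : s 0 = true <;>
    simp [h0, hs, eq_sub_iff_add_eq, mul_comm]
  all_goals
    have hiff : (ep s + -1 = y) ↔ (ep s = y + 1) := by omega
    simp only [hiff]

lemma TT_val (n : ℕ) (y : ℤ) : TT n true y = v n y ∧ TT n false y = -Complex.I * u n y := by
  induction n generalizing y with
  | zero =>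
    constructor
    · unfold TT
      rw [v_zero]
      rw [← (Equiv.funUnique (Fin 1) Bool).symm.sum_comp]
      rw [Fintype.sum_bool]
      simp [ep, wt, eq_comm]
    · unfold TT
      rw [u_zero]
      rw [← (Equiv.funUnique (Fin 1) Bool).symm.sum_comp]
      rw [Fintype.sum_bool]
      simp [ep, wt, eq_comm]
  | succ n ih =>
    rw [TT_succ, TT_succ, u_succ, v_succ]
    simp only [if_true, Bool.not_true, Bool.not_false, (ih _).1, (ih _).2]
    constructor
    · push_cast
      linear_combination (u n (y-1) : ℂ) * Complex.I_mul_I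
    · simp only [Bool.false_eq_true, if_false, sub_neg_eq_add, (ih _).1, (ih _).2]
      push_cast
      ring

/-- the sum over paths is `v - i u` -/
theorem path_sum (n : ℕ) (y : ℤ) :
    (∑ s ∈ Finset.univ.filter
              (fun s : Fin (n+1) → Bool =>
                s 0 = true ∧ ∑ i, (if s i then (1:ℤ) else -1) = y),
            (-Complex.I) ^ ((Finset.univ.filter
              (fun i : Fin n => s i.castSucc ≠ s i.succ)).card))
      = (v n y : ℂ) - Complex.I * (u n y : ℂ) := by
  have h : (v n y : ℂ) - Complex.I * (u n y : ℂ) = TT n true y + TT n false y := by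
    rw [(TT_val n y).1, (TT_val n y).2]; ring
  rw [h, Finset.sum_filter]
  unfold TT
  rw [← Finset.sum_add_distrib]
  apply Finset.sum_congr rfl
  intro s _
  have hw : (-Complex.I) ^ ((Finset.univ.filter
              (fun i : Fin n => s i.castSucc ≠ s i.succ)).card) = wt s := by
    unfold wt
    rw [Finset.prod_ite, Finset.prod_const, Finset.prod_const_one, mul_one]
  rw [hw]
  change (if s 0 = true ∧ ep s = y then wt s else 0) = _
  cases hs : s (Fin.last n) <;> simp

end Pool.Agent.Feynman
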